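import Pool.Agent.Lib.MP_fce888_co.Iface

set_option autoImplicit false

/-!
# MP_fce888_co, section F: from an extension with `m` inequalities to a cover with `m` rectangles

For a circuit `C` let `f_C w = |C| - 1 - ∑_{e ∈ C} π(w) e`, nonnegative on the polyhedron, and let `σ C` be the set of
the inequalities which are tight on the whole face `f_C = 0`.
-/

namespace Pool.Agent.Lib.MP_fce888_co

open Finset
open scoped Classical

/-! ### A face of a polyhedron is given by its tight inequalities -/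

private lemma f_interior {k m : ℕ} (A : Matrix (Fin m) (Fin k) ℝ) (b : Fin m → ℝ)
    (g : (Fin k → ℝ) →ₗ[ℝ] ℝ) (c : ℝ) (hne : ∃ w, A.mulVec w ≤ b ∧ g w + c = 0)
    (s : Finset (Fin m)) : ∃ w0, (A.mulVec w0 ≤ b ∧ g w0 + c = 0) ∧
      ∀ x ∈ s, (∃ w, (A.mulVec w ≤ b ∧ g w + c = 0) ∧ A.mulVec w x < b x) →
        A.mulVec w0 x < b x := by
  induction s using Finset.induction_on with
  | empty =>
    obtain ⟨w, hw⟩ := hne
    exact ⟨w, hw, fun x hx => absurd hx (Finset.notMem_empty x)⟩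
  | insert a s ha ih =>
    obtain ⟨w0, ⟨h1, h2⟩, h3⟩ := ih
    by_cases h : ∃ w, (A.mulVec w ≤ b ∧ g w + c = 0) ∧ A.mulVec w a < b a
    · obtain ⟨w, ⟨h4, h5⟩, h6⟩ := h
      have hmid : ∀ x, A.mulVec ((1 / 2 : ℝ) • w0 + (1 / 2 : ℝ) • w) x =
          (A.mulVec w0 x + A.mulVec w x) / 2 := by
        intro x
        rw [Matrix.mulVec_add, Matrix.mulVec_smul, Matrix.mulVec_smul, Pi.add_apply, Pi.smul_apply,
          Pi.smul_apply, smul_eq_mul, smul_eq_mul]
        ring
      refine ⟨(1 / 2 : ℝ) • w0 + (1 / 2 : ℝ) • w, ⟨?_, ?_⟩, ?_⟩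
      · intro x
        rw [hmid]
        have := h1 x
        have := h4 x
        linarith
      · rw [map_add, map_smul, map_smul, smul_eq_mul, smul_eq_mul]
        linarith
      · intro x hx hex
        rw [hmid]
        have h7 := h1 x
        have h8 := h4 x
        rcases Finset.mem_insert.1 hx with rfl | hxs
        · linarith
        · have := h3 x hxs hex
          linarith
    · refine ⟨w0, ⟨h1, h2⟩, ?_⟩
      intro x hx hex
      rcases Finset.mem_insert.1 hx with rfl | hxs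
      · exact absurd hex h
      · exact h3 x hxs hex

private lemma f_face {k m : ℕ} (A : Matrix (Fin m) (Fin k) ℝ) (b : Fin m → ℝ)
    (g : (Fin k → ℝ) →ₗ[ℝ] ℝ) (c : ℝ) (hf : ∀ w, A.mulVec w ≤ b → 0 ≤ g w + c)
    (hne : ∃ w, A.mulVec w ≤ b ∧ g w + c = 0) (w : Fin k → ℝ) (hw : A.mulVec w ≤ b)
    (ht : ∀ x, (∀ w', A.mulVec w' ≤ b → g w' + c = 0 → A.mulVec w' x = b x) →
      A.mulVec w x = b x) : g w + c = 0 := by
  obtain ⟨w0, ⟨h1, h2⟩, h3⟩ := f_interior A b g c hne Finset.univ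
  have hv : ∀ (ε : ℝ) (x : Fin m), A.mulVec (w0 + ε • (w0 - w)) x =
      A.mulVec w0 x + ε * (A.mulVec w0 x - A.mulVec w x) := by
    intro ε x
    rw [Matrix.mulVec_add, Matrix.mulVec_smul, Matrix.mulVec_sub, Pi.add_apply, Pi.smul_apply,
      Pi.sub_apply, smul_eq_mul]
  have hev : ∀ᶠ ε : ℝ in nhdsWithin 0 (Set.Ioi 0), ∀ x : Fin m,
      A.mulVec (w0 + ε • (w0 - w)) x ≤ b x := by
    rw [Filter.eventually_all]
    intro x
    by_cases h : ∃ w, (A.mulVec w ≤ b ∧ g w + c = 0) ∧ A.mulVec w x < b x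
    · have h4 := h3 x (Finset.mem_univ x) h
      have hcont : Continuous fun ε : ℝ =>
          A.mulVec w0 x + ε * (A.mulVec w0 x - A.mulVec w x) := by fun_prop
      have h5 : ∀ᶠ ε : ℝ in nhds 0, A.mulVec w0 x + ε * (A.mulVec w0 x - A.mulVec w x) < b x := by
        have := hcont.tendsto 0
        rw [zero_mul, add_zero] at this
        exact this.eventually (gt_mem_nhds h4)
      filter_upwards [nhdsWithin_le_nhds h5] with ε hε
      rw [hv]
      exact hε.le
    · have h4 : ∀ w', A.mulVec w' ≤ b → g w' + c = 0 → A.mulVec w' x = b x := by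
        intro w' h6 h7
        by_contra hcon
        exact h ⟨w', ⟨h6, h7⟩, lt_of_le_of_ne (h6 x) hcon⟩
      refine Filter.Eventually.of_forall fun ε => ?_
      rw [hv, h4 w0 h1 h2, ht x h4]
      simp
  obtain ⟨ε, hε, hε0⟩ := (hev.and self_mem_nhdsWithin).exists
  have hε0' : 0 < ε := hε0
  have h6 := hf _ hε
  rw [map_add, map_smul, map_sub, smul_eq_mul] at h6
  have h7 := hf w hw
  have h8 : 0 ≤ -(ε * (g w + c)) := by
    have : g w0 + ε * (g w0 - g w) + c = (g w0 + c) + ε * ((g w0 + c) - (g w + c)) := by ring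
    rw [this, h2] at h6
    linarith
  have h9 : 0 ≤ ε * (g w + c) := mul_nonneg hε0'.le h7
  have h10 : ε * (g w + c) = 0 := by linarith
  exact (mul_eq_zero.mp h10).resolve_left hε0'.ne'

/-! ### Circuits and trees -/

variable {V : Type} [Fintype V]

omit [Fintype V] in
private lemma f_walk {H : SimpleGraph V} {u v : V} (p : H.Walk u v) (h : u ≠ v) :
    ∃ a, H.Adj u a := by
  cases p with
  | nil => exact absurd rfl h
  | cons h' _ => exact ⟨_, h'⟩

omit [Fintype V] in
/-- an acyclic graph contains no circuit -/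
lemma F_exists_notMem {G T : SimpleGraph V} (hT : T.IsAcyclic) {C : Finset (Sym2 V)}
    (hC : IsCirc G C) : ∃ e ∈ C, e ∉ T.edgeSet := by
  obtain ⟨m, γ, hm, hγ, hadj, rfl⟩ := hC
  by_contra hcon
  push Not at hcon
  have hTadj : ∀ i : ℕ, i < m → T.Adj (γ (i : ℤ)) (γ ((i : ℤ) + 1)) := by
    intro i hi
    have := hcon s(γ (i : ℤ), γ ((i : ℤ) + 1)) (Finset.mem_image.2 ⟨i, Finset.mem_range.2 hi, rfl⟩)
    exact this
  -- the edge from `γ (m-1)` to `γ m = γ 0` is not a bridge
  have hlast : T.Adj (γ ((m - 1 : ℕ) : ℤ)) (γ 0) := by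
    have h1 := hTadj (m - 1) (by omega)
    have h2 : γ (((m - 1 : ℕ) : ℤ) + 1) = γ 0 := by
      rw [hγ]
      have : (((m - 1 : ℕ) : ℤ) + 1) - 0 = (m : ℤ) := by omega
      rw [this]
    rwa [h2] at h1
  have hbr := (SimpleGraph.isAcyclic_iff_forall_adj_isBridge.1 hT) hlast
  rw [SimpleGraph.isBridge_iff] at hbr
  apply hbr
  have hreach : ∀ i : ℕ, i ≤ m - 1 →
      (T.deleteEdges {s(γ ((m - 1 : ℕ) : ℤ), γ 0)}).Reachable (γ 0) (γ (i : ℤ)) := by
    intro i
    induction i with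
    | zero =>
      intro _
      exact SimpleGraph.Reachable.refl _
    | succ i ih =>
      intro hi
      have h1 := ih (by omega)
      have h2 : (T.deleteEdges {s(γ ((m - 1 : ℕ) : ℤ), γ 0)}).Adj (γ (i : ℤ)) (γ ((i + 1 : ℕ) : ℤ)) := by
        rw [SimpleGraph.deleteEdges_adj]
        refine ⟨?_, ?_⟩
        · have := hTadj i (by omega)
          push_cast
          exact this
        · rw [Set.mem_singleton_iff, Sym2.eq_iff]
          rintro (⟨h3, h4⟩ | ⟨h3, h4⟩)
          · rw [hγ] at h3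
            have := Int.le_of_dvd (by omega) (dvd_neg.2 h3)
            omega
          · rw [hγ] at h3 h4
            obtain ⟨q, hq⟩ := h4
            obtain ⟨q', hq'⟩ := h3
            have h5 : (m : ℤ) ∣ ((i + 1 : ℕ) : ℤ) - ((m - 1 : ℕ) : ℤ) := ⟨q, hq⟩
            have h6 : (m : ℤ) ∣ (i : ℤ) - 0 := ⟨q', hq'⟩
            rcases Nat.eq_zero_or_pos i with hi0 | hi0
            · subst hi0
              have h7 : (m : ℤ) ∣ ((m - 1 : ℕ) : ℤ) - ((0 + 1 : ℕ) : ℤ) := by
                rw [← dvd_neg]; simpa using h5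
              have := Int.le_of_dvd (by omega) h7
              omega
            · have := Int.le_of_dvd (by omega) h6
              omega
      exact h1.trans h2.reachable
  exact (hreach (m - 1) le_rfl).symm

omit [Fintype V] in
/-- every circuit is fundamental for some spanning tree -/
lemma F_exists_tree {G : SimpleGraph V} (hG : G.Connected) {C : Finset (Sym2 V)}
    (hC : IsCirc G C) : ∃ T : SimpleGraph V, T ≤ G ∧ T.IsTree ∧
      (C.filter fun e => e ∉ T.edgeSet).card = 1 := by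
  obtain ⟨m, γ, hm, hγ, hadj, hCeq⟩ := id hC
  -- the paths `γ 0, …, γ i`
  let H : ℕ → SimpleGraph V := fun i =>
    SimpleGraph.fromEdgeSet ((fun j : ℕ => s(γ (j : ℤ), γ ((j : ℤ) + 1))) '' {j | j < i})
  have hH : ∀ i, i ≤ m - 1 → (H i).IsAcyclic := by
    intro i
    induction i with
    | zero =>
      intro _
      have : H 0 = ⊥ := by
        simp [H]
      rw [this]
      exact SimpleGraph.isAcyclic_bot
    | succ i ih =>
      intro hi
      have h1 := ih (by omega)
      have hne : γ (i : ℤ) ≠ γ ((i : ℤ) + 1) := (hadj i).ne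
      have h2 : H (i + 1) = H i ⊔ SimpleGraph.edge (γ (i : ℤ)) (γ ((i : ℤ) + 1)) := by
        ext a b
        simp only [H, SimpleGraph.fromEdgeSet_adj, SimpleGraph.sup_adj, SimpleGraph.edge_adj,
          Set.mem_image, Set.mem_ofPred_eq]
        constructor
        · rintro ⟨⟨j, hj, hj2⟩, hab⟩
          rcases Nat.lt_succ_iff_lt_or_eq.1 hj with h | h
          · exact Or.inl ⟨⟨j, h, hj2⟩, hab⟩
          · subst h
            refine Or.inr ⟨?_, hab⟩
            rcases Sym2.eq_iff.1 hj2 with ⟨h3, h4⟩ | ⟨h3, h4⟩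
            · exact Or.inl ⟨h3.symm, h4.symm⟩
            · exact Or.inr ⟨h4.symm, h3.symm⟩
        · rintro (⟨⟨j, hj, hj2⟩, hab⟩ | ⟨h, hab⟩)
          · exact ⟨⟨j, Nat.lt_succ_of_lt hj, hj2⟩, hab⟩
          · refine ⟨⟨i, Nat.lt_succ_self i, ?_⟩, hab⟩
            rcases h with ⟨rfl, rfl⟩ | ⟨rfl, rfl⟩
            · rfl
            · exact Sym2.eq_swap
      rw [h2]
      refine SimpleGraph.IsAcyclic.sup_edge_of_not_reachable ?_ h1
      intro hr
      -- `γ (i+1)` is isolated in `H i`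
      obtain ⟨p⟩ := hr
      have hiso : ∀ a, ¬ (H i).Adj (γ ((i : ℤ) + 1)) a := by
        intro a ha
        simp only [H, SimpleGraph.fromEdgeSet_adj, Set.mem_image, Set.mem_ofPred_eq] at ha
        obtain ⟨⟨j, hj, hj2⟩, -⟩ := ha
        rcases Sym2.eq_iff.1 hj2 with ⟨h3, -⟩ | ⟨-, h4⟩
        · rw [hγ] at h3
          have := Int.le_of_dvd (by omega) (dvd_neg.2 h3)
          omega
        · rw [hγ] at h4
          have := Int.le_of_dvd (by omega) (dvd_neg.2 h4)
          omega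
      obtain ⟨a, ha⟩ := f_walk p.reverse hne.symm
      exact hiso a ha
  have hle : H (m - 1) ≤ G := by
    intro a b hab
    simp only [H, SimpleGraph.fromEdgeSet_adj, Set.mem_image, Set.mem_ofPred_eq] at hab
    obtain ⟨⟨j, hj, hj2⟩, -⟩ := hab
    have h1 : s(a, b) ∈ G.edgeSet := by
      rw [← hj2]
      exact hadj j
    exact h1
  obtain ⟨T, hHT, hTG, hT⟩ := hG.exists_isTree_le_of_le_of_isAcyclic hle (hH (m - 1) le_rfl)
  refine ⟨T, hTG, hT, ?_⟩
  rw [Finset.card_eq_one]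
  refine ⟨s(γ ((m - 1 : ℕ) : ℤ), γ (((m - 1 : ℕ) : ℤ) + 1)), ?_⟩
  have hsub : ∀ e ∈ C, e ∉ T.edgeSet → e = s(γ ((m - 1 : ℕ) : ℤ), γ (((m - 1 : ℕ) : ℤ) + 1)) := by
    intro e he heT
    rw [hCeq] at he
    obtain ⟨j, hj, rfl⟩ := Finset.mem_image.1 he
    rw [Finset.mem_range] at hj
    rcases Nat.lt_or_ge j (m - 1) with h | h
    · exfalso
      apply heT
      have h1 : (H (m - 1)).Adj (γ (j : ℤ)) (γ ((j : ℤ) + 1)) := by
        simp only [H, SimpleGraph.fromEdgeSet_adj, Set.mem_image, Set.mem_ofPred_eq]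
        exact ⟨⟨j, h, rfl⟩, (hadj j).ne⟩
      exact hHT h1
    · have : j = m - 1 := by omega
      rw [this]
  obtain ⟨e, he, heT⟩ := F_exists_notMem hT.isAcyclic hC
  ext e'
  rw [Finset.mem_filter, Finset.mem_singleton]
  constructor
  · rintro ⟨h1, h2⟩
    exact hsub e' h1 h2
  · intro h
    rw [h, ← hsub e he heT]
    exact ⟨he, heT⟩

/-! ### The section statement -/

private lemma f_cover (G : SimpleGraph V) (hG : G.Connected) (k m : ℕ)
    (A : Matrix (Fin m) (Fin k) ℝ) (b : Fin m → ℝ) (π : (Fin k → ℝ) →ᵃ[ℝ] (Sym2 V → ℝ))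
    (hπ : π '' {w : Fin k → ℝ | A.mulVec w ≤ b} =
        convexHull ℝ {x : Sym2 V → ℝ | ∃ T : SimpleGraph V, T ≤ G ∧ T.IsTree ∧
            x = T.edgeSet.indicator (fun _ => (1 : ℝ))}) :
    ∃ σ : Finset (Sym2 V) → Finset (Fin m), IsCover G m σ := by
  set TT : Set (Sym2 V → ℝ) := {x : Sym2 V → ℝ |
          ∃ T : SimpleGraph V, T ≤ G ∧ T.IsTree ∧
            x = T.edgeSet.indicator (fun _ => (1 : ℝ))} with hTT
  -- the functional of a circuit
  let l : Finset (Sym2 V) → ((Sym2 V → ℝ) →ₗ[ℝ] ℝ) := fun C =>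
    ∑ e ∈ C, LinearMap.proj e
  have hl : ∀ C x, l C x = ∑ e ∈ C, x e := by
    intro C x
    simp [l, LinearMap.sum_apply]
  let g : Finset (Sym2 V) → ((Fin k → ℝ) →ₗ[ℝ] ℝ) := fun C => -((l C).comp π.linear)
  let c : Finset (Sym2 V) → ℝ := fun C => (C.card : ℝ) - 1 - l C (π 0)
  have hgc : ∀ C w, g C w + c C = (C.card : ℝ) - 1 - ∑ e ∈ C, π w e := by
    intro C w
    have h1 : π w = π.linear w + π 0 := by
      have := congrFun π.decomp w
      simpa using this
    have h2 : ∑ e ∈ C, π w e = l C (π.linear w) + l C (π 0) := by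
      rw [← map_add, ← h1, hl]
    rw [h2]
    simp only [g, c, LinearMap.neg_apply, LinearMap.comp_apply]
    ring
  -- values at trees
  have htree : ∀ (T : SimpleGraph V) (C : Finset (Sym2 V)),
      (C.card : ℝ) - 1 - ∑ e ∈ C, T.edgeSet.indicator (fun _ => (1 : ℝ)) e =
        ((C.filter fun e => e ∉ T.edgeSet).card : ℝ) - 1 := by
    intro T C
    have h1 : ∑ e ∈ C, T.edgeSet.indicator (fun _ => (1 : ℝ)) e =
        ((C.filter fun e => e ∈ T.edgeSet).card : ℝ) := by
      rw [Finset.card_filter]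
      push_cast
      refine Finset.sum_congr rfl fun e _ => ?_
      rw [Set.indicator_apply]
    have h2 := Finset.card_filter_add_card_filter_not (s := C) (fun e => e ∈ T.edgeSet)
    have h3 : ((C.filter fun e => e ∈ T.edgeSet).card : ℝ) +
        ((C.filter fun e => e ∉ T.edgeSet).card : ℝ) = C.card := by exact_mod_cast h2
    rw [h1]
    linarith
  have hwT : ∀ T : SimpleGraph V, T ≤ G → T.IsTree →
      ∃ w, A.mulVec w ≤ b ∧ π w = T.edgeSet.indicator (fun _ => (1 : ℝ)) := by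
    intro T h1 h2
    have h3 : T.edgeSet.indicator (fun _ => (1 : ℝ)) ∈ π '' {w : Fin k → ℝ | A.mulVec w ≤ b} := by
      rw [hπ]
      exact subset_convexHull ℝ _ ⟨T, h1, h2, rfl⟩
    obtain ⟨w, hw, hw2⟩ := h3
    exact ⟨w, hw, hw2⟩
  -- validity
  have hvalid : ∀ C, IsCirc G C → ∀ w, A.mulVec w ≤ b → 0 ≤ g C w + c C := by
    intro C hC w hw
    rw [hgc]
    have h1 : π w ∈ convexHull ℝ TT := by
      rw [← hπ]
      exact ⟨w, hw, rfl⟩
    have h2 : convexHull ℝ TT ⊆ {x | l C x ≤ (C.card : ℝ) - 1} := by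
      refine convexHull_min ?_ (convex_halfSpace_le (l C).isLinear _)
      rintro x ⟨T, h3, h4, rfl⟩
      show l C _ ≤ _
      rw [hl]
      have h5 := htree T C
      obtain ⟨e, he, heT⟩ := F_exists_notMem h4.isAcyclic hC
      have h6 : 1 ≤ (C.filter fun e => e ∉ T.edgeSet).card :=
        Finset.card_pos.2 ⟨e, Finset.mem_filter.2 ⟨he, heT⟩⟩
      have h7 : (1 : ℝ) ≤ ((C.filter fun e => e ∉ T.edgeSet).card : ℝ) := by exact_mod_cast h6
      linarith
    have h3 := h2 h1
    have h4 : l C (π w) ≤ (C.card : ℝ) - 1 := h3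
    rw [hl] at h4
    linarith
  let σ : Finset (Sym2 V) → Finset (Fin m) := fun C => univ.filter fun x =>
    ∀ w', A.mulVec w' ≤ b → g C w' + c C = 0 → A.mulVec w' x = b x
  refine ⟨σ, ?_⟩
  rintro T ⟨T', hT'G, hT', hTT'⟩ C hC hcard
  obtain ⟨w, hw, hwT'⟩ := hwT T' hT'G hT'
  have hsd : ∀ D : Finset (Sym2 V), D \ T = D.filter fun e => e ∉ T'.edgeSet := by
    intro D
    ext e
    rw [Finset.mem_sdiff, Finset.mem_filter, hTT']
  have hval : ∀ D, g D w + c D = ((D \ T).card : ℝ) - 1 := by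
    intro D
    rw [hgc, hwT', htree, hsd]
  have hex : ∃ x ∈ σ C, A.mulVec w x ≠ b x := by
    by_contra hcon
    push Not at hcon
    have hface : g C w + c C = 0 := by
      refine f_face A b (g C) (c C) (hvalid C hC) ?_ w hw ?_
      · obtain ⟨T2, h1, h2, h3⟩ := F_exists_tree hG hC
        obtain ⟨w2, h4, h5⟩ := hwT T2 h1 h2
        refine ⟨w2, h4, ?_⟩
        rw [hgc, h5, htree, h3]
        norm_num
      · intro x hx
        exact hcon x (Finset.mem_filter.2 ⟨Finset.mem_univ x, hx⟩)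
    rw [hval] at hface
    have : (2 : ℝ) ≤ ((C \ T).card : ℝ) := by exact_mod_cast hcard
    linarith
  obtain ⟨x, hx, hxne⟩ := hex
  refine ⟨x, hx, ?_⟩
  intro D hD hD1 hxD
  apply hxne
  refine (Finset.mem_filter.1 hxD).2 w hw ?_
  rw [hval, hD1]
  norm_num

theorem FStatement_proof : FStatement := fun _ G hG k m A b π hπ => f_cover G hG k m A b π hπ

end Pool.Agent.Lib.MP_fce888_co
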